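import Pool.Agent.Results.MP_a09a03_nt.FibrationsNumberField
import Pool.Agent.V1158.BL.Tor
set_option autoImplicit false

/-!
Beilinson's conjecture on regulators in weight `dim X + 1`, for `i = dim X`: the regulators of the
unramified symbols on the fibrations `∏_j (z_j + κ_j + 1/z_j) = λ ∏_e L_e` in Calabi-Yau varieties
of dimension `s` over projective space of dimension `n + 1`, the `L_e` being `m + 1` affine forms in
general position over a number field, are given by the simplicial boundary operator, for `λ → ∞`.

The symbols belong to the simplices `S` with `n + 2` vertices in `{0, ..., m}`, and there is a torus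
`Γ_T` in the complex points for every simplex `T` with `n + 1` vertices in `{0, ..., m}`. For
`λ → ∞` the matrix of all regulators, divided by `(2 π) ^ (s + n + 1) log |λ|`, tends to the matrix
of the boundary operator of the simplex with the vertices `0, ..., m`, from the dimension `n + 1` to
the dimension `n`. So for large `λ` the classes of any set of simplices whose boundaries are
linearly independent (for `n = 0`: the classes of the edges of any forest) have linearly independent
regulators; the maximal number of them is the rank `binom(m, n + 1)` of the boundary operator, the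
number `p_g` of classes which is expected. `FibrationsNumberField` treats the simplices `S` with the
vertex `0`, and shows only that the determinant is not zero.
-/

namespace Pool.Agent.Results.MP_a09a03_nt.BoundaryLimits

open Pool.Agent.TH826.MK (KQ symb Unramified Torus)

open Pool.Agent.TH333.CY

open Pool.Agent.Y797.IV (Clears GenPos)

open Pool.Agent.V1158.BL (bd)

open Pool.Agent.Results.MP_a09a03_nt.FibrationsNumberField (Cyclotomic SmoothPoints
  UnramifiedSymbols)

variable {K : Type*} [Field K] {s n m : ℕ}

/-- There are tori `Γ_T` of dimension `d = s + n + 1` in the complex points (over `σ`) of the open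
part of the hypersurface, one for every simplex `T` with `n + 1` vertices in `{0, ..., m}`, such that
* the regulator of the symbol of `S` on `Γ_T`, divided by `(2 π) ^ d log |σ λ|`, differs by less than
  `ε` from the coefficient `bd S T` of `T` in the boundary of `S`, for all simplices `S` with `n + 2`
  vertices and all `T`;
* for every set `F` of simplices `S` whose boundaries are linearly independent the vectors of the
  regulators of the symbols of the `S` in `F` on the tori `Γ_T` are linearly independent. -/
def BoundaryLimit (σ : K →+* ℂ) (lam : K) (κ : Fin (s + 1) → K) (c : Fin (m + 1) → Fin (n + 1) → K)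
    (a : Fin (m + 1) → K) (ε : ℝ) : Prop :=
  ∃ Γ : (Fin (n + 1) ↪o Fin (m + 1)) → Torus (YOpen lam κ c a) (s + (n + 1)),
    (∀ T θ (x : K), (Γ T).e θ (ycst lam κ c a x) = σ x) ∧
    (∀ (T : Fin (n + 1) ↪o Fin (m + 1)) (S : Fin (n + 2) ↪o Fin (m + 1)),
      |(Γ T).reg (symb (yent lam κ c a S)) /
        ((2 * Real.pi) ^ (s + (n + 1)) * Real.log ‖σ lam‖) - bd S T| < ε) ∧
    ∀ F : Finset (Fin (n + 2) ↪o Fin (m + 1)), (LinearIndependent ℝ fun S : F => bd S.1) →
      LinearIndependent ℝ fun S : F => fun T : Fin (n + 1) ↪o Fin (m + 1) =>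
        (Γ T).reg (symb (yent lam κ c a S.1))

/-- Let `s ≥ 1`, `n + 1 ≤ m`, let `σ` be a complex embedding of the number field `K`, let
`κ_0, ..., κ_s` be integers of `K` such that the polynomials `X² + κ_j X + 1` divide `X^N - 1`
(e.g. `κ_j ∈ {0, 1, -1}`, `N = 12`), and let `L_e = ∑_j c_{e,j} x_j - a_e`, `0 ≤ e ≤ m`, be affine
forms in `n + 1` variables with integral coefficients in `K` in general position (the linear parts of
`n + 1` different forms are linearly independent, `n + 2` different forms have no common zero). An
algebraic integer `D ≠ 0` of `K` clears the denominators of the vertices, if the coordinates of `D p`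
are integral for all common zeros `p` of `n + 1` forms; there are such `D` (even positive rational
integers). For every `ε > 0` there is a constant `C` such that for all these `D`, all algebraic
integers `μ` of `K` and `λ = μ D ^ (m + 1)` with `|σ λ| ≥ C`
* the coordinate ring of the hypersurface `∏_j (z_j² + κ_j z_j + 1) = Φ ∏_j z_j`, `Φ = λ ∏_e L_e`,
  in the affine space with the coordinates `z_0, ..., z_s, x_0, ..., x_n` is a domain, the
  hypersurface is smooth at all complex points over `σ` at which no `z_j` vanishes and at most one of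
  the forms `L_e` vanishes, and for all `n + 2` different forms `S` the symbol
  `{z_0, ..., z_s, u_1, ..., u_{n+1}}`, `u_k = γ_k L_{S_k} / (γ_0 L_{S_0})`, is unramified at all
  discrete valuations of the function field, where `γ_k` is `(-1)^k` times the determinant of the
  linear parts of the forms `S` without `S_k` (this is contained in `FibrationsNumberField`);
* `BoundaryLimit` holds with `ε`.
The boundaries of the `binom(m, n + 1)` simplices with the smallest vertex `0` are linearly
independent. -/
theorem result.{u, v} (s n m : ℕ) (hs : 1 ≤ s) (hm : n + 1 ≤ m) (K : Type u) [Field K]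
    [NumberField K] (σ : K →+* ℂ) (κ : Fin (s + 1) → K) (hκ : Cyclotomic κ)
    (c : Fin (m + 1) → Fin (n + 1) → K) (a : Fin (m + 1) → K) (hc : ∀ e j, IsIntegral ℤ (c e j))
    (ha : ∀ e, IsIntegral ℤ (a e)) (hG : GenPos c a) :
    (LinearIndependent ℝ fun S : {S : Fin (n + 2) ↪o Fin (m + 1) // S 0 = 0} => bd S.1) ∧
    (∃ D : ℕ, Clears c a (D : K)) ∧
    ∀ ε : ℝ, 0 < ε → ∃ C : ℝ, ∀ D mu : K, Clears c a D → IsIntegral ℤ mu →
      C ≤ ‖σ (mu * D ^ (m + 1))‖ →
      IsDomain (YRing (mu * D ^ (m + 1)) κ c a) ∧
      SmoothPoints σ (mu * D ^ (m + 1)) κ c a ∧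
      UnramifiedSymbols.{u, v} (mu * D ^ (m + 1)) κ c a ∧
      BoundaryLimit σ (mu * D ^ (m + 1)) κ c a ε := by
  refine ⟨Pool.Agent.V1158.BL.indep_zero, ?_⟩
  obtain ⟨hD, C1, hC1⟩ :=
    Pool.Agent.Results.MP_a09a03_nt.FibrationsNumberField.result.{u, v} s n m hs hm K σ κ hκ c a hc
      ha hG
  refine ⟨hD, fun ε hε => ?_⟩
  obtain ⟨δ, hδ, hδ2⟩ := Pool.Agent.V1158.BL.exists_delta (n := n) (m := m)
  obtain ⟨C2, hC2, h2⟩ := Pool.Agent.V1158.BL.exists_all (a := a) σ κ hG.1 hG.2
    (ε := min (ε / 2) δ) (lt_min (by linarith) hδ)
  refine ⟨max C1 C2, fun D mu hD hmu hl => ?_⟩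
  obtain ⟨g1, g2, g3, -⟩ := hC1 D mu hD hmu ((le_max_left _ _).trans hl)
  refine ⟨g1, g2, g3, ?_⟩
  generalize mu * D ^ (m + 1) = lam at hl
  have hl2 : C2 ≤ ‖σ lam‖ := (le_max_right _ _).trans hl
  obtain ⟨Γ, hΓ1, hΓ2⟩ := h2 lam hl2
  refine ⟨Γ, hΓ1, fun T S => ?_, fun F hF => ?_⟩
  · exact (hΓ2 T S).trans_lt ((min_le_left _ _).trans_lt (by linarith))
  · set q : ℝ := (2 * Real.pi) ^ (s + (n + 1)) * Real.log ‖σ lam‖ with hq
    have hq0 : q ≠ 0 := by
      have h3 : 0 < Real.log ‖σ lam‖ := Real.log_pos (by linarith)
      have := Real.pi_pos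
      positivity
    have h4 := hδ2 (fun S T => (Γ T).reg (symb (yent lam κ c a S)) / q)
      (fun S T => (hΓ2 T S).trans (min_le_right _ _)) F hF
    have h5 := h4.units_smul (fun _ => Units.mk0 q hq0)
    convert h5 using 1
    funext S T
    show _ = q * ((Γ T).reg (symb (yent lam κ c a S.1)) / q)
    field_simp

end Pool.Agent.Results.MP_a09a03_nt.BoundaryLimits
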