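import Pool.Agent.V1157.RG.Main

/-!
# Beilinson's regulator conjecture holds if its defects are bounded

Fix the dimension `n` of the generic fibres (`d = n + 1`) and the index `i` of the regulators
`r : M(X) → S(X)`: for `i ≥ 1`, `M(X) = H^{2d-1-i}(X_{/ℤ}, ℚ(d)) ⊗ ℝ` and
`S(X) = H_D^{2d-1-i}(X_{/ℝ}, ℝ(d))`; for `i = 0`, `M(X) = H^{2d-1}(X_{/ℤ}, ℚ(d)) ⊗ ℝ` and `S(X)` is
the kernel of the push-forward `H_D^{2d-1}(X_{/ℝ}, ℝ(d)) → CH^0(X)^*_ℝ`. Decomposable
correspondences act on both sides through the groups of the base field, for which the regulators are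
isomorphisms (Borel's theorem). Then, for the given `n` and `i`,

* the regulators of all varieties are injective if and only if the dimensions of their kernels are
  bounded, and if and only if the self-correspondences of degree zero satisfy some non-zero
  multilinear polynomial identity on the kernels;
* the same holds for surjectivity and the cokernels;
* so the regulators of all varieties are isomorphisms if and only if the dimensions of their kernels
  and cokernels are bounded.
-/

open CategoryTheory AlgebraicGeometry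

universe u v w

namespace Pool.Agent.Results.MP_a09a03_nt.BoundedDefects

open Pool.Agent.H914 Pool.Agent.H914.VarClass Pool.Agent.H914.VarClass.Obj Pool.Agent.W492.BB
  Pool.Agent.TH133 Pool.Agent.V1157.KF Pool.Agent.V1157.RG

theorem result {k : Type u} [Field k] {𝒱 : VarClass k} {C : TheoryData.{u, v, 0} 𝒱 ℚ}
    [IsChowProj C] {n : ℕ} {F : Type} [Field F] [CharZero F] (a : Regulators.{u, v, w} C n F)
    (hB : ∀ (S : 𝒱.Obj) (N : ℕ), S.dim = n → HasPower C n N S) :
    (IsIso a ↔ ∃ D, KerAtMost a D ∧ CokerAtMost a D) ∧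
    List.TFAE [∀ X : 𝒱.Obj, X.dim = n → Function.Injective (a.r X), ∃ D, KerAtMost a D,
      ∃ (d : ℕ) (c : Equiv.Perm (Fin d) → F), c ≠ 0 ∧ KerIdentity a d c] ∧
    List.TFAE [∀ X : 𝒱.Obj, X.dim = n → Function.Surjective (a.r X), ∃ D, CokerAtMost a D,
      ∃ (d : ℕ) (c : Equiv.Perm (Fin d) → F), c ≠ 0 ∧ CokerIdentity a d c] := by
  refine ⟨⟨fun h => ?_, ?_⟩, ker_main a hB, coker_main a hB⟩
  · refine ⟨0, ?_, ?_⟩
    · intro X b hX hb
      refine ⟨fun _ => 1, fun h0 => one_ne_zero (congrFun h0 0), ?_⟩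
      have h1 : ∀ i, b i = 0 := fun i => (h X hX).1 ((hb i).trans (r_zero a X).symm)
      rw [comb]
      exact Finset.sum_eq_zero fun i _ => by rw [h1 i, smul_zero]
    · intro X s hX
      refine ⟨fun _ => 1, fun h0 => one_ne_zero (congrFun h0 0), ?_⟩
      exact (h X hX).2 _
  · rintro ⟨D, hK, hC⟩ X hX
    have h1 : (∃ D, KerAtMost a D) ↔ ∀ X : 𝒱.Obj, X.dim = n → Function.Injective (a.r X) :=
      (ker_main a hB).out 1 0
    have h2 : (∃ D, CokerAtMost a D) ↔ ∀ X : 𝒱.Obj, X.dim = n → Function.Surjective (a.r X) :=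
      (coker_main a hB).out 1 0
    exact ⟨h1.1 ⟨D, hK⟩ X hX, h2.1 ⟨D, hC⟩ X hX⟩

end Pool.Agent.Results.MP_a09a03_nt.BoundedDefects
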