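import Pool.Agent.V11133.BEI.Lim
import Pool.Agent.TH577.UA.Smooth
import Pool.Agent.TH577.UA.Dom
set_option autoImplicit false

/-!
Beilinson's conjecture on regulators in weight `dim X + 1`, for `i = dim X`: the limit formula for
the determinants of the regulators of unramified classes in Milnor K-theory on the hypersurfaces
`λ g ∏_e L_e ^ (w_e + 1) = 1` in all dimensions `n ≥ 1`, the `L_e` being arbitrary different affine
forms with integral coefficients whose maximal minors are zero or units: for `λ → ∞` the
determinant, divided by `(- log |λ|) ^ N`, tends to `∏_T (2π)^n (w_{T_0} + 1)^(n - 1)`, the product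
over the `N` bases `T` without broken circuits and of internal activity zero.
-/

namespace Pool.Agent.Results.MP_a09a03_nt.LimitFormula

open Pool.Agent.TH826.MK (KQ symb Unramified Torus)

open Pool.Agent.TH826.GA (cm vtx)

open Pool.Agent.TH577.UA

/-- Let `1 ≤ n`, let `σ` be a complex embedding of the number field `K`, and let
`L_e = ∑_j c_{e,j} x_j - a_e`, `0 ≤ e ≤ m`, be affine forms in `n + 1` variables with integral
coefficients in `K`, such that all determinants `det (c_{T_i,j})` of `n + 1` of the forms are zero or
units (of the ring of algebraic integers), not all of them are zero, and no form is a multiple of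
another one. Let `w_e ≥ 0` be integers and let `g` be a polynomial with integral coefficients which
does not vanish at the vertices of the arrangement. For every `ε > 0` there is a constant `C` such
that for all algebraic integers `λ` of `K` with `|σ λ| ≥ C` the following holds for the coordinate
ring `A` of the hypersurface `λ g ∏_e L_e ^ (w_e + 1) = 1` of dimension `n`.

If `g = 1`, the hypersurface is smooth at the complex points over `σ`, and if moreover `w_e = 0` for
a nonconstant form `L_e`, the ring `A` is a domain.

For all `T = (T_0, ..., T_n)` with nonzero determinant the symbol `{u_0, ..., u_n}`,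
`u_i = κ_i L_{T_i} / L_{h_i}` (`h_i` is the largest index such that the determinant of `T` with
`T_i` replaced by `h_i` is not zero and `κ_i` is the quotient of this determinant and of the one of
`T`), has unramified images in the rational Milnor K-theory of all fields `L` with a homomorphism
`A → L`.

There are tori `Γ_T` of dimension `n` in the complex points (over `σ`) of the hypersurface, such that
the determinant of the regulators of the symbols of the `T'` on the tori `Γ_T` does not vanish and,
divided by `(-log |σ λ|) ^ N`, differs from `∏_T (2π)^n (w_{T_0} + 1)^(n - 1)` by less than `ε`; here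
`T` and `T'` run through the set `Ix` of all `T_0 < ... < T_n` with nonzero determinant such that
every `T_i` can be replaced by a later form (with nonzero determinant), and every other form which
vanishes at the vertex of `T` can replace a later form `T_i`, and `N` is the number of the elements
of `Ix`. -/
theorem result (n : ℕ) (hn : 1 ≤ n) (m : ℕ) (K : Type*) [Field K] [NumberField K]
    (σ : K →+* ℂ) (c : Fin (m + 1) → Fin (n + 1) → K) (a : Fin (m + 1) → K) (hA : UMod c a)
    (hD : Distinct c a) (hR : ∃ T : Fin (n + 1) → Fin (m + 1), (cm c T).det ≠ 0)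
    (w : Fin (m + 1) → ℕ) (g : MvPolynomial (Fin (n + 1)) K)
    (hg : ∀ k, IsIntegral ℤ (g.coeff k))
    (hv : ∀ T : Fin (n + 1) → Fin (m + 1), (cm c T).det ≠ 0 →
      MvPolynomial.eval (vtx c a T) g ≠ 0) (ε : ℝ) (hε : 0 < ε) :
    ∃ C : ℝ, ∀ lam : K, IsIntegral ℤ lam → C ≤ ‖σ lam‖ →
      (g = 1 →
        (∀ x : Fin (n + 1) → ℂ, MvPolynomial.eval₂ σ x (aeqn lam g w c a) = 0 →
          ∃ j, MvPolynomial.eval₂ σ x (MvPolynomial.pderiv j (aeqn lam g w c a)) ≠ 0) ∧
        ((∃ e, w e = 0 ∧ ∃ j, c e j ≠ 0) → IsDomain (ARing lam g w c a))) ∧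
      (∀ (L : Type*) [Field L] (f : ARing lam g w c a →+* L) (T : Fin (n + 1) → Fin (m + 1)),
        (cm c T).det ≠ 0 →
          KQ.map (n + 1) f (symb (aent lam g w c a T)) ∈ Unramified L (n + 1)) ∧
      ∃ Γ : Ix c a → Torus (ARing lam g w c a) n,
        (∀ T θ (x : K), (Γ T).e θ (acst lam g w c a x) = σ x) ∧
        |(Matrix.of fun T T' : Ix c a =>
            (Γ T).reg (symb (aent lam g w c a T'.1))).det /
              (-Real.log ‖σ lam‖) ^ Fintype.card (Ix c a) -
            ∏ T : Ix c a, (2 * Real.pi) ^ n * ((w (T.1 0) : ℝ) + 1) ^ (n - 1)| < ε ∧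
        (Matrix.of fun T T' : Ix c a =>
          (Γ T).reg (symb (aent lam g w c a T'.1))).det ≠ 0 := by
  obtain ⟨d, rfl⟩ : ∃ d, n = d + 1 := ⟨n - 1, by omega⟩
  obtain ⟨c1, hc1, h⟩ := Pool.Agent.V11133.BEI.limit_tori (g := g) (w := w) σ hD hv hε
  obtain ⟨c2, h2⟩ := exists_smooth (a := a) σ hR w
  refine ⟨max c1 c2, fun lam hlam hl => ?_⟩
  have hl1 : c1 ≤ ‖σ lam‖ := (le_max_left _ _).trans hl
  have hl0 : lam ≠ 0 := by
    intro h0
    rw [h0, map_zero, norm_zero] at hl1
    linarith
  refine ⟨fun hg1 => ?_, fun L _ f T hT => symb_mem_unramified f hlam hg hA hT, ?_⟩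
  · subst hg1
    exact ⟨h2 lam ((le_max_right _ _).trans hl), fun ⟨e, he1, he2⟩ =>
      isDomain_ARing hR hD he2 he1 hl0⟩
  · obtain ⟨Γ, h3, h4, h5⟩ := h lam hl1
    refine ⟨Γ, h3, ?_, h5⟩
    have h6 : ∏ T : Ix c a, Pool.Agent.V11133.BEI.coef (d + 1) (w (T.1 0)) =
        ∏ T : Ix c a, (2 * Real.pi) ^ (d + 1) * ((w (T.1 0) : ℝ) + 1) ^ (d + 1 - 1) :=
      Finset.prod_congr rfl fun T _ => Pool.Agent.V11133.BEI.coef_eq hn _
    rw [← h6]
    exact h4

end Pool.Agent.Results.MP_a09a03_nt.LimitFormula
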