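import Pool.Agent.H255R.MO.High

/-!
# Beilinson regulators, in the weights above the dimension, of products of regular surfaces and of
products of curves
-/

open CategoryTheory AlgebraicGeometry

universe u v w x

namespace Pool.Agent.Results.MP_a09a03_nt.RegularSurfaces

open Pool.Agent.H914 Pool.Agent.H914.VarClass Pool.Agent.H914.VarClass.Obj Pool.Agent.W492.BB
  Pool.Agent.W550.Corr Pool.Agent.TH133 Pool.Agent.H255R.HR Pool.Agent.H255R.MR

/-- The regulator `φ : M(X) → D(X)` of the variety `X` is bijective in the weights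
`n ≥ dim X + c` (the classes of weight `n` are those of the families `𝓜` and `𝓓`). -/
def RegulatorBijective {k : Type u} [Field k] {𝒱 : VarClass k} {C : TheoryData.{u, v, 0} 𝒱 ℚ}
    {M D : ModData.{u, v, x} C} (φ : ∀ X, M.A X → D.A X) (𝓜 : Fam M) (𝓓 : Fam D) (c : ℤ)
    (X : 𝒱.Obj) : Prop :=
  (∀ n : ℤ, X.dim + c ≤ n → ∀ t : M.A X, 𝓜.Mem X n t → φ X t = 0 → t = 0) ∧
    ∀ n : ℤ, X.dim + c ≤ n → ∀ d : D.A X, 𝓓.Mem X n d → ∃ t : M.A X, 𝓜.Mem X n t ∧ φ X t = d

/-- Consider the smooth projective varieties `X` over `ℚ̄`, and fix an integer `j ≥ 2` (`j = i + 1` in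
the problem). Let `M(X)` be the sum of the integral parts of the motivic cohomology groups
`H^{2n-j}(X_K, ℚ(n)) ⊗ ℝ` (the direct limit over the number fields `K`, and the models `X_K` of `X`),
let `D(X)` be the direct limit of the sums of the real Deligne cohomology groups
`H_D^{2n-j}(X_K/ℝ, ℝ(n))`, and let `φ` be the regulator. (By Galois descent `φ` is bijective in the
weight `n` if and only if the regulators of all models of `X` over number fields are bijective in the
weight `n`. The problem is the case `n = dim X + 1` for `X`; by the projective bundle formula its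
conjecture for the varieties `X × ℙ^m`, for all `m`, is the bijectivity for `X` in all the weights
`n ≥ dim X + 1`.) More generally, let `φ : M → D` be a transformation of module theories over
the Chow groups, where `M` and `D` are graded by weights.

Let `𝒞` be a class of curves with `HasGalQuotients` (for example all curves, or one hyperelliptic
curve). For all varieties `U`, all integers `c` and all `N` the following statements are equivalent.

1. The regulators are bijective, in the weights at least the dimension plus `c`, for the varieties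
`U × A` and `U × A × S`, where `A` is a product of at most `N` regular surfaces dominated by products
of two curves in `𝒞`, and `S` is a curve in `𝒞`.
2. The same without the condition that the surfaces be regular.
3. The regulators are bijective, in the weights at least the dimension plus `c`, for `U × W`, where
`W` is a product of at most `2 N + 1` curves in `𝒞`.
4. The regulators are bijective, in the weights at least the dimension plus `c`, for all varieties
which are dominated by varieties `U × W` as in 3. -/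
theorem result {k : Type u} [Field k] {𝒱 : VarClass k} (C : TheoryData.{u, v, 0} 𝒱 ℚ)
    [IsChowProj C] {F : Type w} [Field F] [CharZero F] (H : WeilTheoryData.{u, v, w} C F)
    [IsWeilProj H] (M D : ModData.{u, v, x} C) (hM : IsModTheory M) (hD : IsModTheory D)
    (φ : ∀ X, M.A X → D.A X) (hφ : IsTransformation M D φ) (𝓜 : Fam M) (𝓓 : Fam D)
    (𝒞 : 𝒱.Obj → Prop) (hG : HasGalQuotients.{u, v, w, x} H 𝒞) (U : 𝒱.Obj) (c : ℤ) (N : ℕ) :
    List.TFAE [
      ∀ m ≤ N, ∀ A : 𝒱.Obj, IsProdOf U (IsRegDominated.{u, v, w, x} H 𝒞) m A →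
        RegulatorBijective φ 𝓜 𝓓 c A ∧
          ∀ S : 𝒱.Obj, 𝒞 S → RegulatorBijective φ 𝓜 𝓓 c (A.prod S),
      ∀ m ≤ N, ∀ A : 𝒱.Obj, IsProdOf U (IsDominated.{u, v, x} C 𝒞) m A →
        RegulatorBijective φ 𝓜 𝓓 c A ∧
          ∀ S : 𝒱.Obj, 𝒞 S → RegulatorBijective φ 𝓜 𝓓 c (A.prod S),
      ∀ l ≤ 2 * N + 1, ∀ W : 𝒱.Obj, IsProdOf U 𝒞 l W → RegulatorBijective φ 𝓜 𝓓 c W,
      ∀ l ≤ 2 * N + 1, ∀ W X : 𝒱.Obj, IsProdOf U 𝒞 l W → IsDominatedBy C W X →
        RegulatorBijective φ 𝓜 𝓓 c X] :=
  Pool.Agent.H255R.MO.tfaeO (M := M) (M' := D) (𝓜 := kerFam hφ 𝓜) (𝓝 := zeroFam M) (𝓜' := 𝓓) (𝓝' := imFam hφ 𝓜)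
    hG U (Pool.Agent.H255R.MO.isOk_high c) N _ fun _ => and_congr
      ⟨fun h n hn t ht => h n hn t ht.1 ht.2, fun h n hn t ht h0 => h n hn t ⟨ht, h0⟩⟩ Iff.rfl

end Pool.Agent.Results.MP_a09a03_nt.RegularSurfaces
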